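import Pool.Agent.H560Bh.Signed

namespace Pool.Agent.Results.MP_f688e9_co.FixedSize

open Pool.Agent.H560Bh

/-- For every fixed size `m ≥ 2`, with `Δ` the critical determinant of the `m`-dimensional
cross-polytope: `σ_±(ℤ_n,h) ≥ m` implies `2 n ≥ Δ (2 h + 2) ^ m`, and for every `ρ > Δ` and every
large `n`, `σ_±(ℤ_n,h) ≥ m` for all `h ≥ 1` with `ρ (2 h) ^ m < 2 n`. -/
theorem result : ∀ m : ℕ, 2 ≤ m →
    0 < critN (l1 (d := m)) ∧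
    (∀ n h : ℕ, 1 ≤ n → 1 ≤ h → m ≤ SmallModuli.sigma n h →
      critN (l1 (d := m)) * (2 * (h : ℝ) + 2) ^ m ≤ 2 * n) ∧
    (∀ ρ : ℝ, critN (l1 (d := m)) < ρ →
      ∃ n₀ : ℕ, ∀ n ≥ n₀, ∀ h : ℕ, 1 ≤ h → ρ * (2 * (h : ℝ)) ^ m < 2 * n → m ≤ SmallModuli.sigma n h) := by
  intro m hm
  obtain ⟨d, rfl⟩ : ∃ d, m = d + 1 + 1 := ⟨m - 2, by omega⟩
  have h0 := crit_l1_pos (d + 1)
  exact ⟨h0, fun n h hn hh hs => signed_lower d n h hn hh hs,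
    fun ρ hρ => signed_upper d ρ hρ (h0.trans hρ)⟩

end Pool.Agent.Results.MP_f688e9_co.FixedSize
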